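import Pool.Agent.Q34.ConeD

set_option autoImplicit false
open MvPolynomial
open scoped LinearAlgebra.Projectivization

namespace Pool.Agent.Results.MP_69376a_ag.UnexpectedCones

/-- The projection from `P` to the plane `x_3 = 0`, in the coordinates `x_0, x_1, x_2`: it is linear
in `x` and has kernel the line spanned by `P`. -/
def proj (P x : Fin 4 → ℂ) : Fin 3 → ℂ :=
  fun i => P (Fin.last 3) * x i.castSucc - x (Fin.last 3) * P i.castSucc

/-- `Z` is `(a, b)`-geproci: `a ≤ b`, and for a general point `P` (in the complement of the zero set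
of a nonzero polynomial and of the plane `x_3 = 0`) the homogeneous ideal of the image of `Z` under
the projection from `P` is generated by two forms of degrees `a` and `b`. -/
def IsGeproci (Z : Finset (ℙ ℂ (Fin 4 → ℂ))) (a b : ℕ) : Prop :=
  a ≤ b ∧ ∃ h : MvPolynomial (Fin 4) ℂ, h ≠ 0 ∧
    ∀ P : Fin 4 → ℂ, P (Fin.last 3) ≠ 0 → eval P h ≠ 0 →
      ∃ F G : MvPolynomial (Fin 3) ℂ, F.IsHomogeneous a ∧ G.IsHomogeneous b ∧
        ∀ f : MvPolynomial (Fin 3) ℂ, f ∈ Ideal.span {F, G} ↔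
          ∀ z ∈ Z, ∀ t : ℂ, eval (t • proj P z.rep) f = 0

/-- `Z` is an `(a, b)`-grid for some `2 ≤ a ≤ b`: the set of the intersection points of `a` pairwise
disjoint lines `A i` and `b` pairwise disjoint lines `B j`, where every `A i` meets every `B j` in
exactly one point. Lines are given by the two-dimensional subspaces. -/
def IsGrid (Z : Finset (ℙ ℂ (Fin 4 → ℂ))) : Prop :=
  ∃ (a b : ℕ) (A : Fin a → Submodule ℂ (Fin 4 → ℂ)) (B : Fin b → Submodule ℂ (Fin 4 → ℂ)),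
    2 ≤ a ∧ a ≤ b ∧
    (∀ i, Module.finrank ℂ (A i) = 2) ∧ (∀ j, Module.finrank ℂ (B j) = 2) ∧
    (∀ i i', i ≠ i' → A i ⊓ A i' = ⊥) ∧ (∀ j j', j ≠ j' → B j ⊓ B j' = ⊥) ∧
    (∀ i j, Module.finrank ℂ (↥(A i ⊓ B j)) = 1) ∧
    ∀ z : ℙ ℂ (Fin 4 → ℂ), z ∈ Z ↔ ∃ i j, z.submodule = A i ⊓ B j

/-- `Z` is nontrivial: not contained in a plane, and not a grid. -/
def IsNontrivial (Z : Finset (ℙ ℂ (Fin 4 → ℂ))) : Prop :=
  (∀ c : Fin 4 → ℂ, (∀ z ∈ Z, ∑ i, c i * z.rep i = 0) → c = 0) ∧ ¬ IsGrid Z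

/-- The homogeneous ideal of the set of points represented by the vectors of `V`: the polynomials
vanishing on all scalar multiples of the vectors of `V`. -/
def homIdeal (V : Set (Fin 4 → ℂ)) : Ideal (MvPolynomial (Fin 4) ℂ) where
  carrier := {f | ∀ v ∈ V, ∀ t : ℂ, eval (t • v) f = 0}
  add_mem' := fun {f g} hf hg v hv t => by rw [map_add, hf v hv t, hg v hv t, add_zero]
  zero_mem' := fun v _ t => by rw [map_zero]
  smul_mem' := fun c f hf v hv t => by rw [smul_eq_mul, map_mul, hf v hv t, mul_zero]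

/-- The dimension of the degree `d` part of the ideal `I`. -/
noncomputable def dimPart (I : Ideal (MvPolynomial (Fin 4) ℂ)) (d : ℕ) : ℕ :=
  Module.finrank ℂ ↥(homogeneousSubmodule (Fin 4) ℂ d ⊓ I.restrictScalars ℂ)

/-- Condition `C(d)`: for a general point `P`
`dim [I(Z) ∩ I(P)^d]_d > max (0, dim [I(Z)]_d - (d + 2 choose 3))`. -/
def ConditionC (Z : Finset (ℙ ℂ (Fin 4 → ℂ))) (d : ℕ) : Prop :=
  ∃ h : MvPolynomial (Fin 4) ℂ, h ≠ 0 ∧ ∀ P : Fin 4 → ℂ, eval P h ≠ 0 →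
    max 0 ((dimPart (homIdeal {v | ∃ z ∈ Z, v = z.rep}) d : ℤ) - ((d + 2).choose 3 : ℤ)) <
      (dimPart (homIdeal {v | ∃ z ∈ Z, v = z.rep} ⊓ homIdeal {P} ^ d) d : ℤ)

open Pool.Agent.Helper947.Geo Pool.Agent.Y206.Q Pool.Agent.Y206.G in
/-- Every nontrivial `(a, b)`-geproci set satisfies both `C(a)` and `C(b)`. -/
theorem result (Z : Finset (ℙ ℂ (Fin 4 → ℂ))) (a b : ℕ) (hZ : IsGeproci Z a b)
    (hn : IsNontrivial Z) : ConditionC Z a ∧ ConditionC Z b := by
  classical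
  obtain ⟨hab, h, hh, hP⟩ := hZ
  obtain ⟨hnd, hgrid⟩ := hn
  have hsp : Submodule.span ℂ (Set.range (fun z : Z => z.1.rep)) = ⊤ := c4_span Z hnd
  have hpair : ∀ k l : Z, k ≠ l → LinearIndependent ℂ ![k.1.rep, l.1.rep] := fun k l hkl =>
    c4_pair k.1 l.1 fun h => hkl (Subtype.ext h)
  have hz0 : ∀ k : Z, k.1.rep ≠ 0 := fun k => k.1.rep_nonzero
  have hG : Gep (fun z : Z => z.1.rep) a b := by
    refine ⟨h * X (Fin.last 3), mul_ne_zero hh (X_ne_zero _), fun P hP' => ?_⟩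
    rw [map_mul, eval_X] at hP'
    obtain ⟨F, G, hF, hG, hI⟩ := hP P (right_ne_zero_of_mul hP') (left_ne_zero_of_mul hP')
    refine ⟨F, G, hF, hG, fun f => ?_⟩
    rw [hI f]
    exact ⟨fun h1 k t => h1 k.1 k.2 t, fun h1 z hz t => h1 ⟨z, hz⟩ t⟩
  obtain ⟨φ, hφ, hgood⟩ := Q34.Cone.good_point (fun z : Z => z.1.rep) hpair hz0 hsp a b hG
  obtain ⟨P₀, hP₀⟩ := g4_exists_ne φ hφ
  obtain ⟨-, ha2, hb2, hcard, -⟩ := hgood P₀ hP₀
  have hgrid' : ¬ Grid Z := by
    rintro ⟨m, n, L, M, h1, h2, h3, h4, h5, h6⟩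
    have hin : ∀ z : Z, ∃ i j, z.1.submodule = L i ⊓ M j := fun z => (h6 z.1).mp z.2
    have hm : 2 ≤ m := by
      by_contra hm
      have hS : ∃ S : Submodule ℂ (Fin 4 → ℂ), Module.finrank ℂ S ≤ 2 ∧ ∀ z : Z, z.1.rep ∈ S := by
        rcases Nat.eq_zero_or_pos m with h0 | h0
        · subst h0
          refine ⟨⊥, by simp, fun z => ?_⟩
          obtain ⟨i, -⟩ := hin z
          exact i.elim0
        · have h7 : m = 1 := by omega
          subst h7
          refine ⟨L 0, (h1 0).le, fun z => ?_⟩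
          obtain ⟨i, j, hij⟩ := hin z
          rw [← sub_le_iff, hij, Subsingleton.elim i 0]
          exact inf_le_left
      obtain ⟨S, hS1, hS2⟩ := hS
      have h7 : (⊤ : Submodule ℂ (Fin 4 → ℂ)) ≤ S := by
        rw [← hsp, Submodule.span_le]
        rintro _ ⟨z, rfl⟩
        exact hS2 z
      have h8 := Submodule.finrank_mono h7
      rw [finrank_top, Module.finrank_fin_fun] at h8
      omega
    have hn : 2 ≤ n := by
      by_contra hn
      have hS : ∃ S : Submodule ℂ (Fin 4 → ℂ), Module.finrank ℂ S ≤ 2 ∧ ∀ z : Z, z.1.rep ∈ S := by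
        rcases Nat.eq_zero_or_pos n with h0 | h0
        · subst h0
          refine ⟨⊥, by simp, fun z => ?_⟩
          obtain ⟨i, j, -⟩ := hin z
          exact j.elim0
        · have h7 : n = 1 := by omega
          subst h7
          refine ⟨M 0, (h2 0).le, fun z => ?_⟩
          obtain ⟨i, j, hij⟩ := hin z
          rw [← sub_le_iff, hij, Subsingleton.elim j 0]
          exact inf_le_right
      obtain ⟨S, hS1, hS2⟩ := hS
      have h7 : (⊤ : Submodule ℂ (Fin 4 → ℂ)) ≤ S := by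
        rw [← hsp, Submodule.span_le]
        rintro _ ⟨z, rfl⟩
        exact hS2 z
      have h8 := Submodule.finrank_mono h7
      rw [finrank_top, Module.finrank_fin_fun] at h8
      omega
    apply hgrid
    rcases le_total m n with hmn | hmn
    · exact ⟨m, n, L, M, hm, hmn, h1, h2, h3, h4, h5, h6⟩
    · refine ⟨n, m, M, L, hn, hmn, h2, h1, h4, h3, fun i j => ?_, fun z => ?_⟩
      · rw [inf_comm]; exact h5 j i
      · rw [h6, exists_comm]
        refine exists_congr fun j => exists_congr fun i => ?_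
        rw [inf_comm]
  have ha3 : 3 ≤ a := by
    by_contra ha
    have ha' : a = 2 := by omega
    subst ha'
    apply hgrid'
    rcases Nat.lt_or_ge b 3 with hb | hb
    · have hb' : b = 2 := by omega
      subst hb'
      exact four_case Z (by simpa using hcard) hsp
    · exact Q34.Cone.type_two Z hsp b hb hG
  have hIZ : IsVan (fun z : Z => z.1.rep) (homIdeal {v | ∃ z ∈ Z, v = z.rep}) := by
    intro f
    constructor
    · intro hf k t
      exact hf _ ⟨k.1, k.2, rfl⟩ t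
    · rintro hf _ ⟨z, hz, rfl⟩ t
      exact hf ⟨z, hz⟩ t
  obtain ⟨ψ, hψ, hC⟩ := Q34.Cone.unexpected (fun z : Z => z.1.rep) hpair hz0 hsp a b ha3
    (ha3.trans hab) hG _ hIZ (fun P => homIdeal {P}) (fun P f =>
      ⟨fun hf t => hf P rfl t, fun hf v hv t => by rw [Set.mem_singleton_iff.mp hv]; exact hf t⟩)
  exact ⟨⟨ψ, hψ, fun P hPψ => hC P hPψ a (Or.inl rfl)⟩, ⟨ψ, hψ, fun P hPψ => hC P hPψ b (Or.inr rfl)⟩⟩

end Pool.Agent.Results.MP_69376a_ag.UnexpectedCones
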